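import Pool.Agent.Helper92.FR.GoalsS
import Pool.Agent.Helper7.FR.INT

/-!
# FR, packet BIG: a bounded polyhedron is contained in a box of moderate size
-/

set_option autoImplicit false

namespace Pool.Agent.Helper82.FR

open Pool.Agent.Helper92.FR Pool.Agent.Helper92.VP Pool.Agent.Helper7.FR Pool.Agent.Bin

/-- The denominator (`1` if the given one is `0`). -/
def den (q : RQ) : ℕ := if q.2.2.val = 0 then 1 else q.2.2.val

/-- The numerator. -/
def num (q : RQ) : ℤ := if q.2.2.val = 0 then 0 else (if q.1 then -1 else 1) * (q.2.1.val : ℤ)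

theorem den_pos (q : RQ) : 1 ≤ den q := by
  unfold den
  split_ifs <;> omega

theorem val_eq (q : RQ) : q.val * (den q : ℝ) = (num q : ℝ) := by
  unfold den num RQ.val
  by_cases h : q.2.2.val = 0
  · simp [h]
  · have h' : (q.2.2.val : ℝ) ≠ 0 := by exact_mod_cast h
    rw [if_neg h, if_neg h]
    field_simp
    by_cases h2 : q.1 = true <;> simp [h2]

theorem den_le (q : RQ) : den q ≤ 2 ^ Nat.size q.2.2.val := by
  unfold den
  split_ifs with h
  · exact Nat.one_le_two_pow
  · exact (Nat.lt_size_self _).le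

theorem num_le (q : RQ) : |num q| ≤ 2 ^ Nat.size q.2.1.val := by
  unfold num
  have h1 : ((q.2.1.val : ℕ) : ℤ) ≤ 2 ^ Nat.size q.2.1.val := by
    exact_mod_cast (Nat.lt_size_self q.2.1.val).le
  by_cases h : q.2.2.val = 0
  · rw [if_pos h, abs_zero]
    positivity
  · rw [if_neg h]
    by_cases h2 : q.1 = true
    · rw [if_pos h2, abs_mul]
      simpa using h1
    · rw [if_neg h2, abs_mul]
      simpa using h1

/-- The common denominator of a list. -/
def cden (l : List RQ) : ℕ := (l.map den).prod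

theorem cden_pos (l : List RQ) : 1 ≤ cden l := by
  unfold cden
  induction l with
  | nil => simp
  | cons a l ih =>
    rw [List.map_cons, List.prod_cons]
    exact Nat.mul_pos (den_pos a) ih

theorem den_dvd (l : List RQ) (q : RQ) (h : q ∈ l) : den q ∣ cden l :=
  List.dvd_prod (List.mem_map_of_mem h)

/-- The total size of the denominators, plus the size of one numerator. -/
theorem cden_le (l : List RQ) : cden l ≤ 2 ^ (l.map fun q => Nat.size q.2.2.val).sum := by
  unfold cden
  induction l with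
  | nil => simp
  | cons a l ih =>
    rw [List.map_cons, List.prod_cons, List.map_cons, List.sum_cons, pow_add]
    exact Nat.mul_le_mul (den_le a) ih

theorem sum_le (l : List RQ) (q : RQ) (h : q ∈ l) :
    (l.map fun q => Nat.size q.2.2.val).sum + Nat.size q.2.1.val ≤ (l.map RQ.bits).sum := by
  induction l with
  | nil => simp at h
  | cons a l ih =>
    rw [List.map_cons, List.sum_cons, List.map_cons, List.sum_cons]
    have h3 : (l.map fun q => Nat.size q.2.2.val).sum ≤ (l.map RQ.bits).sum := by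
      apply List.sum_le_sum
      intro i _
      unfold RQ.bits
      omega
    rcases List.mem_cons.1 h with rfl | h
    · have : q.bits = 1 + Nat.size q.2.1.val + Nat.size q.2.2.val := rfl
      omega
    · have := ih h
      have : a.bits = 1 + Nat.size a.2.1.val + Nat.size a.2.2.val := rfl
      omega

/-- The integer multiple. -/
theorem int_mul (l : List RQ) (q : RQ) (h : q ∈ l) : ∃ z : ℤ, (cden l : ℝ) * q.val = z ∧
    |z| ≤ 2 ^ (l.map RQ.bits).sum := by
  obtain ⟨k, hk⟩ := den_dvd l q h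
  refine ⟨(k : ℤ) * num q, ?_, ?_⟩
  · rw [hk]
    push_cast
    rw [← val_eq]
    ring
  · rw [abs_mul]
    have h1 : k ≤ cden l := by
      rw [hk]
      exact Nat.le_mul_of_pos_left k (den_pos q)
    have h2 : |((k : ℕ) : ℤ)| ≤ 2 ^ (l.map fun q => Nat.size q.2.2.val).sum := by
      rw [abs_of_nonneg (by positivity)]
      exact_mod_cast h1.trans (cden_le l)
    calc |((k : ℕ) : ℤ)| * |num q| ≤ 2 ^ (l.map fun q => Nat.size q.2.2.val).sum *
          2 ^ Nat.size q.2.1.val := mul_le_mul h2 (num_le q) (abs_nonneg _) (by positivity)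
      _ = 2 ^ ((l.map fun q => Nat.size q.2.2.val).sum + Nat.size q.2.1.val) := by rw [pow_add]
      _ ≤ _ := pow_le_pow_right₀ (by norm_num) (sum_le l q h)

theorem int_row (r : List RQ × RQ) : ∃ (D : ℕ) (a : ℕ → ℤ) (b : ℤ), 1 ≤ D ∧
    (∀ j, (D : ℝ) * coef r j = a j ∧ |a j| ≤ 2 ^ ((r.1.map RQ.bits).sum + r.2.bits)) ∧
    (D : ℝ) * r.2.val = b ∧ |b| ≤ 2 ^ ((r.1.map RQ.bits).sum + r.2.bits) := by
  have hs : ((r.1 ++ [r.2]).map RQ.bits).sum = (r.1.map RQ.bits).sum + r.2.bits := by simp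
  obtain ⟨b, hb1, hb2⟩ := int_mul (r.1 ++ [r.2]) r.2 (by simp)
  have ha : ∀ j, ∃ z : ℤ, (cden (r.1 ++ [r.2]) : ℝ) * coef r j = z ∧
      |z| ≤ 2 ^ ((r.1.map RQ.bits).sum + r.2.bits) := by
    intro j
    by_cases hj : j < r.1.length
    · have h1 : r.1.getD j (false, ⟨0⟩, ⟨1⟩) ∈ r.1 ++ [r.2] := by
        rw [List.getD_eq_getElem _ _ hj]
        exact List.mem_append_left _ (List.getElem_mem hj)
      obtain ⟨z, hz1, hz2⟩ := int_mul (r.1 ++ [r.2]) _ h1
      rw [hs] at hz2
      exact ⟨z, hz1, hz2⟩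
    · refine ⟨0, ?_, ?_⟩
      · unfold coef
        rw [List.getD_eq_default _ _ (not_lt.1 hj)]
        simp [RQ.val]
      · rw [abs_zero]
        positivity
  choose a ha using ha
  rw [hs] at hb2
  exact ⟨cden (r.1 ++ [r.2]), a, b, cden_pos _, ha, hb1, hb2⟩

/-- Cramer's rule. -/
theorem cramer_bound {N : ℕ} {ι : Type} [Finite ι] (a : ι → Fin N → ℤ) (b : ι → ℤ) (B : ℤ)
    (ha : ∀ k j, |a k j| ≤ B) (hb : ∀ k, |b k| ≤ B)
    (v : Fin N → ℝ) (hv : v ∈ (Ph a b).extremePoints ℝ) (j : Fin N) :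
    |v j| ≤ (Nat.factorial N : ℝ) * (B : ℝ) ^ N := by
  obtain ⟨g, hg1, hg2⟩ := int_system a b v hv
  set A : Matrix (Fin N) (Fin N) ℤ := Matrix.of fun i j => a (g i) j with hA
  have hw : (A.det : ℝ) * v j = ((A.cramer fun i => b (g i)) j : ℝ) := by
    have h1 : (A.map (Int.cast : ℤ → ℝ)).mulVec v = fun i => (b (g i) : ℝ) := by
      ext i
      rw [hg1 i]
      rfl
    have h2 : (A.map (Int.cast : ℤ → ℝ)).adjugate.mulVec (fun i => (b (g i) : ℝ)) =
        (A.map (Int.cast : ℤ → ℝ)).det • v := by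
      rw [← h1, Matrix.mulVec_mulVec, Matrix.adjugate_mul, Matrix.smul_mulVec, Matrix.one_mulVec]
    have h3 : (A.map (Int.cast : ℤ → ℝ)).det = (A.det : ℝ) := by
      have := RingHom.map_det (Int.castRingHom ℝ) A
      simpa using this.symm
    have h4 : (A.map (Int.cast : ℤ → ℝ)).adjugate = A.adjugate.map (Int.cast : ℤ → ℝ) := by
      have := RingHom.map_adjugate (Int.castRingHom ℝ) A
      simpa using this.symm
    have h5 := congrFun h2 j
    rw [h3, h4] at h5
    simp only [Pi.smul_apply, smul_eq_mul] at h5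
    rw [← h5, Matrix.cramer_eq_adjugate_mulVec]
    simp only [Matrix.mulVec, dotProduct, Matrix.map_apply]
    push_cast
    rfl
  have hdet : (1 : ℝ) ≤ |(A.det : ℝ)| := by
    rw [← Int.cast_abs]
    exact_mod_cast Int.one_le_abs hg2
  have hcr : |((A.cramer fun i => b (g i)) j : ℝ)| ≤ (Nat.factorial N : ℝ) * (B : ℝ) ^ N := by
    rw [Matrix.cramer_apply]
    have h1 := Matrix.det_le (A := A.updateCol j fun i => b (g i)) (abv := AbsoluteValue.abs)
      (x := B) (fun i k => by
        rw [AbsoluteValue.abs_apply, Matrix.updateCol_apply]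
        split_ifs
        · exact hb _
        · exact ha _ _)
    rw [AbsoluteValue.abs_apply, Fintype.card_fin, nsmul_eq_mul] at h1
    rw [← Int.cast_abs]
    exact_mod_cast h1
  calc |v j| = 1 * |v j| := (one_mul _).symm
    _ ≤ |(A.det : ℝ)| * |v j| := mul_le_mul_of_nonneg_right hdet (abs_nonneg _)
    _ = |((A.cramer fun i => b (g i)) j : ℝ)| := by rw [← abs_mul, hw]
    _ ≤ _ := hcr

/-- A linear functional on a compact set is at most its value at an extreme point. -/
theorem le_extreme {N : ℕ} (K : Set (Fin N → ℝ)) (hc : IsCompact K)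
    (f : (Fin N → ℝ) →L[ℝ] ℝ) (x₀ : Fin N → ℝ) (hx₀ : x₀ ∈ K) :
    ∃ v ∈ K.extremePoints ℝ, f x₀ ≤ f v := by
  have hexp := ContinuousLinearMap.toExposed.isExposed (𝕜 := ℝ) (l := f) (A := K)
  have hcF := hexp.isCompact hc
  have hne : (f.toExposed K).Nonempty := by
    obtain ⟨y, hy, hy2⟩ := hc.exists_isMaxOn ⟨x₀, hx₀⟩ f.continuous.continuousOn
    exact ⟨y, hy, fun z hz => hy2 hz⟩
  obtain ⟨v, hv⟩ := hcF.extremePoints_nonempty hne
  exact ⟨v, hexp.isExtreme.extremePoints_subset_extremePoints hv, hv.1.2 x₀ hx₀⟩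

theorem big : BigStmt := by
  intro S hbd x hx j
  have : Finite {r // r ∈ S.2} := (List.finite_toSet S.2).to_subtype
  choose D a b hD ha hb1 hb2 using int_row
  have hrow : ∀ r ∈ S.2, (r.1.map RQ.bits).sum + r.2.bits ≤ ssize S := by
    intro r hr
    unfold ssize
    have h1 := List.single_le_sum (l := S.2.map fun r => (r.1.map RQ.bits).sum + r.2.bits)
      (fun _ _ => Nat.zero_le _) _ (List.mem_map_of_mem (f := fun r : List RQ × RQ =>
        (r.1.map RQ.bits).sum + r.2.bits) hr)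
    omega
  let a' : {r // r ∈ S.2} → Fin S.1 → ℤ := fun r j => a r j
  let b' : {r // r ∈ S.2} → ℤ := fun r => b r
  have hset : sol S = Ph a' b' := by
    ext y
    have h1 : ∀ r, (r.2.val ≤ ∑ j : Fin S.1, coef r j * y j) ↔
        ((b r : ℝ) ≤ ∑ j : Fin S.1, (a r j : ℝ) * y j) := by
      intro r
      have hDr : (0 : ℝ) < D r := by exact_mod_cast hD r
      have h2 : ∑ j : Fin S.1, (a r j : ℝ) * y j = (D r : ℝ) * ∑ j : Fin S.1, coef r j * y j := by
        rw [Finset.mul_sum]
        apply Finset.sum_congr rfl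
        intro j _
        rw [← (ha r j).1, mul_assoc]
      rw [h2, ← hb1 r]
      exact (mul_le_mul_iff_right₀ hDr).symm
    constructor
    · intro h r
      exact (h1 r.1).1 (h r.1 r.2)
    · intro h r hr
      exact (h1 r).2 (h ⟨r, hr⟩)
  have hclosed : IsClosed (Ph a' b') := by
    have h1 : Ph a' b' = ⋂ k, {x : Fin S.1 → ℝ | (b' k : ℝ) ≤ ∑ j, (a' k j : ℝ) * x j} := by
      ext y
      simp [Ph]
    rw [h1]
    apply isClosed_iInter
    intro k
    exact isClosed_le continuous_const (by fun_prop)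
  have hcomp : IsCompact (Ph a' b') := by
    rw [hset] at hbd
    exact Metric.isCompact_of_isClosed_isBounded hclosed hbd
  have hn : S.1 ≤ ssize S := Nat.le_add_right _ _
  have hbound : ∀ v ∈ (Ph a' b').extremePoints ℝ, |v j| ≤ 2 ^ (4 * ssize S ^ 2) := by
    intro v hv
    have h1 := cramer_bound a' b' (2 ^ ssize S) (fun k i => ((ha k.1 i).2).trans
      (pow_le_pow_right₀ (by norm_num) (hrow k.1 k.2))) (fun k => (hb2 k.1).trans
      (pow_le_pow_right₀ (by norm_num) (hrow k.1 k.2))) v hv j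
    refine h1.trans ?_
    push_cast
    have h2 : ((Nat.factorial S.1 : ℕ) : ℝ) ≤ 2 ^ (ssize S ^ 2) := by
      have h3 : Nat.factorial S.1 ≤ 2 ^ (ssize S ^ 2) := by
        calc Nat.factorial S.1 ≤ S.1 ^ S.1 := Nat.factorial_le_pow _
          _ ≤ (2 ^ S.1) ^ S.1 := Nat.pow_le_pow_left (Nat.lt_two_pow_self).le _
          _ = 2 ^ (S.1 * S.1) := by rw [← pow_mul]
          _ ≤ 2 ^ (ssize S ^ 2) := by
            apply Nat.pow_le_pow_right (by norm_num)
            rw [sq]
            exact Nat.mul_le_mul hn hn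
      exact_mod_cast h3
    have h4 : ((2 : ℝ) ^ ssize S) ^ S.1 ≤ 2 ^ (ssize S ^ 2) := by
      rw [← pow_mul]
      apply pow_le_pow_right₀ (by norm_num)
      rw [sq]
      exact Nat.mul_le_mul le_rfl hn
    calc ((Nat.factorial S.1 : ℕ) : ℝ) * ((2 : ℝ) ^ ssize S) ^ S.1
        ≤ 2 ^ (ssize S ^ 2) * 2 ^ (ssize S ^ 2) := mul_le_mul h2 h4 (by positivity) (by positivity)
      _ = 2 ^ (ssize S ^ 2 + ssize S ^ 2) := by rw [pow_add]
      _ ≤ _ := pow_le_pow_right₀ (by norm_num) (by omega)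
  have hx' : x ∈ Ph a' b' := by
    rw [← hset]
    exact hx
  rw [abs_le]
  constructor
  · obtain ⟨v, hv1, hv2⟩ := le_extreme _ hcomp (-(ContinuousLinearMap.proj j)) x hx'
    have h1 := (abs_le.1 (hbound v hv1)).1
    simp only [neg_apply, ContinuousLinearMap.proj_apply] at hv2
    linarith
  · obtain ⟨v, hv1, hv2⟩ := le_extreme _ hcomp (ContinuousLinearMap.proj j) x hx'
    have h1 := (abs_le.1 (hbound v hv1)).2
    simp only [ContinuousLinearMap.proj_apply] at hv2
    linarith

end Pool.Agent.Helper82.FR
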