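import Pool.Agent.Helper92.FR.GoalsA

/-!
# FR, packet GRO
-/

set_option autoImplicit false

namespace Pool.Agent.Helper82.FR

open MeasureTheory
open Pool.Agent.Helper92.FR

theorem sum_lam_e {N d : ℕ} (C : Fin N → Fin d → ℝ) (S : Fin d → ℝ) (lam : Fin d → ℝ)
    (z : Fin N ⊕ Fin d → ℝ) :
    ∑ i, lam i * (∑ j, col C S j i * z j) = ∑ j, aa C S lam j * z j := by
  simp only [aa, Finset.mul_sum, Finset.sum_mul]
  rw [Finset.sum_comm]
  refine Finset.sum_congr rfl fun j _ => Finset.sum_congr rfl fun i _ => ?_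
  ring

theorem aa_sub {N d : ℕ} (C : Fin N → Fin d → ℝ) (S : Fin d → ℝ) (lam lam' : Fin d → ℝ)
    (j : Fin N ⊕ Fin d) :
    aa C S lam' j - aa C S lam j = ∑ i, (lam' i - lam i) * col C S j i := by
  simp only [aa]
  rw [← Finset.sum_sub_distrib]
  refine Finset.sum_congr rfl fun i _ => ?_
  ring

theorem FF_convex (h2 : TrcStmt) {N d : ℕ} (C : Fin N → Fin d → ℝ) (S e : Fin d → ℝ)
    (lam lam' : Fin d → ℝ) :
    FF C S e lam + ∑ i, gg C S e lam i * (lam' i - lam i) ≤ FF C S e lam' := by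
  have e1 : ∑ i, gg C S e lam i * (lam' i - lam i) =
      ∑ j, mm (aa C S lam j) * (aa C S lam' j - aa C S lam j) - ∑ i, e i * (lam' i - lam i) := by
    simp only [gg, aa_sub, Finset.mul_sum, sub_mul, Finset.sum_mul, Finset.sum_sub_distrib]
    have : ∑ x, ∑ i, mm (aa C S lam i) * col C S i x * lam' x -
        ∑ x, ∑ i, mm (aa C S lam i) * col C S i x * lam x =
        ∑ x, ∑ i, mm (aa C S lam x) * (lam' i * col C S x i) -
        ∑ x, ∑ i, mm (aa C S lam x) * (lam i * col C S x i) := by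
      rw [Finset.sum_comm (f := fun x i => mm (aa C S lam i) * col C S i x * lam' x),
        Finset.sum_comm (f := fun x i => mm (aa C S lam i) * col C S i x * lam x)]
      congr 1
      · exact Finset.sum_congr rfl fun j _ => Finset.sum_congr rfl fun i _ => by ring
      · exact Finset.sum_congr rfl fun j _ => Finset.sum_congr rfl fun i _ => by ring
    simp only [mul_sub, Finset.sum_sub_distrib, Finset.mul_sum] at this ⊢
    linarith
  have e2 : ∑ j, (GG (aa C S lam j) + mm (aa C S lam j) * (aa C S lam' j - aa C S lam j)) ≤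
      ∑ j, GG (aa C S lam' j) := Finset.sum_le_sum fun j _ => h2 _ _
  rw [Finset.sum_add_distrib] at e2
  have e3 : ∑ i, e i * (lam' i - lam i) = ∑ i, lam' i * e i - ∑ i, lam i * e i := by
    rw [← Finset.sum_sub_distrib]
    exact Finset.sum_congr rfl fun i _ => by ring
  rw [e1, e3]
  simp only [FF]
  linarith

theorem abs_gg_le (h1 : Tr0Stmt) {N d : ℕ} (C : Fin N → Fin d → ℝ) (S e : Fin d → ℝ)
    (lam : Fin d → ℝ) (i : Fin d) :
    |gg C S e lam i| ≤ (∑ j, |col C S j i|) + |e i| := by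
  unfold gg
  refine le_trans (abs_sub _ _) ?_
  refine add_le_add ?_ le_rfl
  refine le_trans (Finset.abs_sum_le_sum_abs _ _) ?_
  refine Finset.sum_le_sum fun j _ => ?_
  rw [abs_mul]
  have h := h1 (aa C S lam j)
  have hm0 : 0 ≤ mm (aa C S lam j) := h.2.2.2.2.2.1
  have hm1 : mm (aa C S lam j) ≤ 1 := h.2.2.2.2.2.2
  rw [abs_of_nonneg hm0]
  exact mul_le_of_le_one_left (abs_nonneg _) hm1

theorem FF_lip_one (h1 : Tr0Stmt) (h2 : TrcStmt) {N d : ℕ} (C : Fin N → Fin d → ℝ)
    (S e : Fin d → ℝ) (lam lam' : Fin d → ℝ) :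
    FF C S e lam - FF C S e lam' ≤
      ∑ i, |lam i - lam' i| * ((∑ j, |col C S j i|) + |e i|) := by
  have h := FF_convex h2 C S e lam lam'
  have h3 : -∑ i, gg C S e lam i * (lam' i - lam i) ≤
      ∑ i, |lam i - lam' i| * ((∑ j, |col C S j i|) + |e i|) := by
    rw [← Finset.sum_neg_distrib]
    refine Finset.sum_le_sum fun i _ => ?_
    have e1 : -(gg C S e lam i * (lam' i - lam i)) = gg C S e lam i * (lam i - lam' i) := by ring
    rw [e1]
    calc gg C S e lam i * (lam i - lam' i) ≤ |gg C S e lam i * (lam i - lam' i)| := le_abs_self _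
      _ = |lam i - lam' i| * |gg C S e lam i| := by rw [abs_mul, mul_comm]
      _ ≤ |lam i - lam' i| * ((∑ j, |col C S j i|) + |e i|) :=
        mul_le_mul_of_nonneg_left (abs_gg_le h1 C S e lam i) (abs_nonneg _)
  linarith

theorem gro (h1 : Tr0Stmt) (h2 : TrcStmt) (h3 : TrgStmt) : GroStmt := by
  intro N d C S e
  refine ⟨?_, FF_convex h2 C S e, ?_, ?_⟩
  · intro σ z hσ hz he lam
    have e1 : FF C S e lam = ∑ j, (GG (aa C S lam j) - aa C S lam j * z j) := by
      rw [Finset.sum_sub_distrib, ← sum_lam_e]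
      simp only [FF, he]
    have e2 : ∑ j, (|aa C S lam j| * σ / 2 + Real.log (σ / 2)) ≤
        ∑ j, (GG (aa C S lam j) - aa C S lam j * z j) := by
      refine Finset.sum_le_sum fun j _ => ?_
      refine h3 _ _ _ hσ ?_ ?_
      · linarith [(hz j).1]
      · linarith [(hz j).2]
    have e3 : ∑ j, (|aa C S lam j| * σ / 2 + Real.log (σ / 2)) =
        σ / 2 * ∑ j, |aa C S lam j| - (N + d) * Real.log (2 / σ) := by
      rw [Finset.sum_add_distrib, Finset.sum_const, Finset.card_univ, Fintype.card_sum,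
        Fintype.card_fin, Fintype.card_fin, nsmul_eq_mul, Finset.mul_sum]
      have e4 : Real.log (σ / 2) = - Real.log (2 / σ) := by
        rw [← Real.log_inv, inv_div]
      rw [e4]
      have e5 : ∑ j, |aa C S lam j| * σ / 2 = ∑ j, σ / 2 * |aa C S lam j| :=
        Finset.sum_congr rfl fun j _ => by ring
      rw [e5]
      push_cast
      ring
    rw [e1, ← e3]
    exact e2
  · intro lam lam'
    rw [abs_sub_le_iff]
    refine ⟨FF_lip_one h1 h2 C S e lam lam', ?_⟩
    have h := FF_lip_one h1 h2 C S e lam' lam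
    refine le_trans h (le_of_eq ?_)
    refine Finset.sum_congr rfl fun i _ => ?_
    rw [abs_sub_comm]
  · have e0 : ∀ j, aa C S 0 j = 0 := fun j => by simp [aa]
    have e1 : GG 0 = 0 := by
      unfold GG MM
      simp
    simp [FF, e0, e1]

end Pool.Agent.Helper82.FR
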